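import Pool.Agent.helper2.BB.Spec

set_option autoImplicit false

namespace BB

open Metric MeasureTheory Set Filter Topology Asymptotics
open Pool.Agent.helper37.PR

theorem C7_fac1 (h : ℂ → ℂ) (ha : AnalyticAt ℂ h 0) (h0 : h 0 = 0) :
    ∃ g : ℂ → ℂ, AnalyticAt ℂ g 0 ∧ g 0 = deriv h 0 ∧ ∀ z, h z = z * g z := by
  refine ⟨dslope h 0, ?_, dslope_same _ _, ?_⟩
  · obtain ⟨p, hp⟩ := ha
    exact hp.has_fpower_series_dslope_fslope.analyticAt
  · intro z
    have := sub_smul_dslope h 0 z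
    rw [h0, sub_zero, sub_zero, smul_eq_mul] at this
    exact this.symm

theorem C7_fac2 (h : ℂ → ℂ) (ha : AnalyticAt ℂ h 0) (h0 : h 0 = 0) (h1 : deriv h 0 = 0) :
    ∃ g : ℂ → ℂ, AnalyticAt ℂ g 0 ∧ ∀ z, h z = z ^ 2 * g z := by
  obtain ⟨g, hg, hg0, hz⟩ := C7_fac1 h ha h0
  obtain ⟨g', hg', -, hz'⟩ := C7_fac1 g hg (hg0.trans h1)
  exact ⟨g', hg', fun z => by rw [hz, hz']; ring⟩

theorem C7_deriv (b X : ℂ) : HasDerivAt (fun z : ℂ => Wd (b * z) X) (b * X) 0 := by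
  unfold Wd
  have h1 : HasDerivAt (fun z : ℂ => 1 + 4 * (b * z) * X) (4 * b * X) 0 := by
    have : HasDerivAt (fun z : ℂ => z * (4 * b * X) + 1) (4 * b * X) 0 := by
      simpa using ((hasDerivAt_id (0 : ℂ)).mul_const (4 * b * X)).add_const 1
    refine this.congr_of_eventuallyEq (Eventually.of_forall fun z => ?_)
    simp only
    ring
  have h2 := h1.cpow_const (c := (1 / 4 : ℂ)) (by simp)
  refine h2.congr_deriv ?_
  simp
  ring

theorem C7_an (b X : ℂ) : AnalyticAt ℂ (fun z : ℂ => Wd (b * z) X) 0 := by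
  unfold Wd
  refine AnalyticAt.cpow ?_ analyticAt_const (by simp)
  fun_prop

theorem C7_val (b X : ℂ) : Wd (b * 0) X = 1 := by
  unfold Wd
  simp

theorem C7_littleO (F : ℂ → ℂ) (hF : ContinuousAt F 0) (hF0 : F 0 = 0) :
    (fun δ : ℝ => (δ : ℂ) ^ 3 * F δ) =o[𝓝[>] 0] fun δ : ℝ => δ ^ 3 := by
  have h1 : Tendsto (fun δ : ℝ => F (δ : ℂ)) (𝓝[>] 0) (𝓝 0) := by
    have h2 : Tendsto (fun δ : ℝ => (δ : ℂ)) (𝓝[>] (0 : ℝ)) (𝓝 0) := by
      have := (Complex.continuous_ofReal.tendsto (0 : ℝ)).mono_left (nhdsWithin_le_nhds (s := Ioi 0))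
      simpa using this
    have := hF.tendsto
    rw [hF0] at this
    exact this.comp h2
  have h3 : (fun δ : ℝ => F (δ : ℂ)) =o[𝓝[>] 0] fun _ => (1 : ℝ) := by
    rw [isLittleO_one_iff]
    exact h1
  have h4 : (fun δ : ℝ => (δ : ℂ) ^ 3) =O[𝓝[>] 0] fun δ : ℝ => δ ^ 3 := by
    refine IsBigO.of_bound 1 (Eventually.of_forall fun δ => ?_)
    simp
  have h5 := h4.mul_isLittleO h3
  simpa using h5

theorem C7 : C7_stmt := by
  intro lam
  constructor
  · unfold DD Wd Kb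
    have hK : AnalyticAt ℂ (fun p : ℂ × ℂ => p.2 / (1 - p.2) ^ 2) (0, 0) := by
      exact AnalyticAt.div analyticAt_snd ((analyticAt_const.sub analyticAt_snd).pow 2) (by simp)
    have hW : ∀ b : ℂ, AnalyticAt ℂ (fun p : ℂ × ℂ => (1 + 4 * (b * p.1) * (p.2 / (1 - p.2) ^ 2)) ^ (1 / 4 : ℂ)) (0, 0) := by
      intro b
      refine AnalyticAt.cpow ?_ analyticAt_const (by simp)
      exact analyticAt_const.add ((analyticAt_const.mul (analyticAt_const.mul analyticAt_fst)).mul hK)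
    have hW1 : AnalyticAt ℂ (fun p : ℂ × ℂ => (1 + 4 * p.1 * (p.2 / (1 - p.2) ^ 2)) ^ (1 / 4 : ℂ)) (0, 0) := by
      simpa using hW 1
    have hq : AnalyticAt ℂ (fun p : ℂ × ℂ => (1 + 4 * (3 * p.1) * (p.2 / (1 - p.2) ^ 2)) ^ (1 / 4 : ℂ) /
        (1 + 4 * (2 * p.1) * (p.2 / (1 - p.2) ^ 2)) ^ (1 / 4 : ℂ)) (0, 0) :=
      (hW 3).div (hW 2) (by simp)
    have hc := (analyticAt_const (𝕜 := ℂ) (v := (1 : ℂ)) (x := ((0 : ℂ), (0 : ℂ)))).sub hq
    have hl : AnalyticAt ℂ (fun p : ℂ × ℂ => (lam : ℂ) * p.1) (0, 0) := analyticAt_const.mul analyticAt_fst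
    exact (hK.div_const.neg).mul
      ((((hc.add hl).pow 2).mul (((hW 2).pow 2).sub (hW1.pow 2))).add
        ((((hc.mul hW1).add hW1).sub analyticAt_const).pow 2))
  · intro X
    -- the three factors
    have a1 := C7_an 1 X
    have a2 := C7_an 2 X
    have a3 := C7_an 3 X
    have d1 := C7_deriv 1 X
    have d2 := C7_deriv 2 X
    have d3 := C7_deriv 3 X
    have v1 := C7_val 1 X
    have v2 := C7_val 2 X
    have v3 := C7_val 3 X
    have ne2 : Wd (2 * 0) X ≠ 0 := by rw [v2]; exact one_ne_zero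
    set w1 : ℂ → ℂ := fun z => Wd (1 * z) X with hw1
    set w2 : ℂ → ℂ := fun z => Wd (2 * z) X with hw2
    set w3 : ℂ → ℂ := fun z => Wd (3 * z) X with hw3
    have v1' : w1 0 = 1 := v1
    have v2' : w2 0 = 1 := v2
    have v3' : w3 0 = 1 := v3
    have ac : AnalyticAt ℂ (fun z => 1 - w3 z / w2 z) 0 := analyticAt_const.sub (a3.div a2 ne2)
    have dc : HasDerivAt (fun z => 1 - w3 z / w2 z) (-X) 0 := by
      have := (d3.div d2 ne2).const_sub 1
      refine this.congr_deriv ?_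
      rw [v2', v3']
      ring
    have aA : AnalyticAt ℂ (fun z => 1 - w3 z / w2 z + lam * z) 0 := ac.add (analyticAt_const.mul analyticAt_id)
    have dA : HasDerivAt (fun z => 1 - w3 z / w2 z + lam * z) (-X + lam) 0 := by
      have := dc.add ((hasDerivAt_id (0 : ℂ)).const_mul (lam : ℂ))
      refine this.congr_deriv (by simp)
    have aB : AnalyticAt ℂ (fun z => w2 z ^ 2 - w1 z ^ 2) 0 := (a2.pow 2).sub (a1.pow 2)
    have dB : HasDerivAt (fun z => w2 z ^ 2 - w1 z ^ 2) (2 * X) 0 := by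
      have := (d2.pow 2).sub (d1.pow 2)
      refine this.congr_deriv ?_
      rw [v1', v2']
      simp
      ring
    have aE : AnalyticAt ℂ (fun z => (1 - w3 z / w2 z) * w1 z + w1 z - 1) 0 := ((ac.mul a1).add a1).sub analyticAt_const
    have dE : HasDerivAt (fun z => (1 - w3 z / w2 z) * w1 z + w1 z - 1) 0 0 := by
      have := ((dc.mul d1).add d1).sub_const 1
      refine this.congr_deriv ?_
      rw [v1', v2', v3']
      simp
    obtain ⟨A, hA, hA0, hAz⟩ := C7_fac1 _ aA (by simp [v2', v3'])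
    obtain ⟨B, hB, hB0, hBz⟩ := C7_fac1 _ aB (by simp [v2', v1'])
    obtain ⟨E, hE, hEz⟩ := C7_fac2 _ aE (by simp [v2', v3', v1']) dE.deriv
    rw [dA.deriv] at hA0
    rw [dB.deriv] at hB0
    have key := C7_littleO (fun z => -(X / 2) * (A z ^ 2 * B z + z * E z ^ 2) + (lam ^ 2 * X ^ 2 - 2 * lam * X ^ 3 + X ^ 4))
      (by
        have c1 := hA.continuousAt
        have c2 := hB.continuousAt
        have c3 := hE.continuousAt
        fun_prop)
      (by
        simp only [hA0, hB0]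
        ring)
    refine key.congr_left fun δ => ?_
    have e1 := hAz (δ : ℂ)
    have e2 := hBz (δ : ℂ)
    have e3 := hEz (δ : ℂ)
    simp only [hw1, hw2, hw3, one_mul] at e1 e2 e3
    unfold DD
    rw [e1, e2, e3]
    ring

end BB
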